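import Pool.Agent.H8.DS.TarA

/-!
SLOPE (MP_81a758_an): slopes of words.
-/

namespace DS
namespace H92SLOPE

theorem one (S B : Type) (Y : Sys S B) (mw : S → ℝ)
    (hne : ∀ b, Y.al b * mw (Y.tgt b) ≤ mw (Y.src b)) :
    ∀ (w : List B) (y y' : S × ℝ), Y.Go w y y' → Y.wal w * mw y'.1 ≤ mw y.1 := by
  intro w
  induction w with
  | nil =>
    intro y y' h
    simp only [Sys.Go] at h
    subst h
    simp [Sys.wal]
  | cons b w ih =>
    intro y y' h
    obtain ⟨h1, _, h3⟩ := h
    have hi := ih _ _ h3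
    simp only at hi
    have hb := hne b
    rw [h1] at hb
    have ha := Y.al_pos b
    simp only [Sys.wal]
    calc Y.wal w * Y.al b * mw y'.1 = Y.al b * (Y.wal w * mw y'.1) := by ring
      _ ≤ Y.al b * mw (Y.tgt b) := mul_le_mul_of_nonneg_left hi ha.le
      _ ≤ mw y.1 := hb

theorem two (S B : Type) (Y : Sys S B) (mw : S → ℝ) (L : ℕ) (ρ : ℝ) (hρ : 0 ≤ ρ)
    (hc : ∀ w : List B, w.length = L → ∀ y y', Y.Go w y y' → Y.wal w * mw y'.1 ≤ ρ * mw y.1) :
    ∀ (k : ℕ) (w : List B) (y y' : S × ℝ), w.length = k * L → Y.Go w y y' →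
      Y.wal w * mw y'.1 ≤ ρ ^ k * mw y.1 := by
  intro k
  induction k with
  | zero =>
    intro w y y' hl h
    have : w = [] := List.eq_nil_of_length_eq_zero (by simpa using hl)
    subst this
    simp only [Sys.Go] at h
    subst h
    simp [Sys.wal]
  | succ k ih =>
    intro w y y' hl h
    have hl' : w.length = k * L + L := by rw [hl]; ring
    rw [← List.take_append_drop L w] at h
    rw [Sys.Go_append] at h
    obtain ⟨z, h1, h2⟩ := h
    have hlt : (w.take L).length = L := by
      rw [List.length_take, hl']; exact min_eq_left (Nat.le_add_left _ _)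
    have hld : (w.drop L).length = k * L := by
      rw [List.length_drop, hl']; exact Nat.add_sub_cancel _ _
    have e1 := hc _ hlt _ _ h1
    have e2 := ih _ _ _ hld h2
    have hw : Y.wal w = Y.wal (w.drop L) * Y.wal (w.take L) := by
      conv_lhs => rw [← List.take_append_drop L w]
      exact Y.wal_append _ _
    have hp := Y.wal_pos (w.take L)
    have hk : 0 ≤ ρ ^ k := pow_nonneg hρ k
    rw [hw]
    calc Y.wal (w.drop L) * Y.wal (w.take L) * mw y'.1
        = Y.wal (w.take L) * (Y.wal (w.drop L) * mw y'.1) := by ring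
      _ ≤ Y.wal (w.take L) * (ρ ^ k * mw z.1) := mul_le_mul_of_nonneg_left e2 hp.le
      _ = ρ ^ k * (Y.wal (w.take L) * mw z.1) := by ring
      _ ≤ ρ ^ k * (ρ * mw y.1) := mul_le_mul_of_nonneg_left e1 hk
      _ = ρ ^ (k + 1) * mw y.1 := by ring

end H92SLOPE

theorem pf_SLOPE : T_SLOPE := by
  intro S B Y mw L ρ _ hne hρ hc
  exact ⟨H92SLOPE.one S B Y mw hne, H92SLOPE.two S B Y mw L ρ hρ hc⟩

end DS
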