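import Pool.Agent.H8.DS.TarA

/-!
MEAS (MP_81a758_an): the image interval of one word meets a decreasing line for few parameters.
-/

namespace DS
namespace H92MEAS

open Set MeasureTheory

theorem wal_eq {S B : Type} (F : Fam S B) (t t' : ℝ) (w : List B) :
    (F.sys t).wal w = (F.sys t').wal w := by
  induction w with
  | nil => rfl
  | cons b w ih =>
    simp only [Sys.wal, ih]
    rfl

theorem wc_mono {S B : Type} (F : Fam S B) (t t' : ℝ) (h : t ≤ t') (w : List B) :
    (F.sys t).wc w ≤ (F.sys t').wc w := by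
  induction w with
  | nil => exact le_refl _
  | cons b w ih =>
    simp only [Sys.wc]
    have h1 : (F.sys t).c b ≤ (F.sys t').c b := by
      change F.be b * t + F.ga b ≤ F.be b * t' + F.ga b
      have := mul_le_mul_of_nonneg_left h (F.be_pos b).le
      linarith
    have hp := (F.sys t).wal_pos w
    have h2 := mul_le_mul_of_nonneg_left h1 hp.le
    rw [← wal_eq F t t' w]
    linarith

theorem wc_diff {S B : Type} (F : Fam S B) (kap : ℝ) (hk : ∀ b, kap ≤ F.be b) (t t' : ℝ)
    (h : t ≤ t') (w : List B) (hw : w ≠ []) :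
    kap * (t' - t) ≤ (F.sys t').wc w - (F.sys t).wc w := by
  induction w with
  | nil => exact absurd rfl hw
  | cons b w ih =>
    simp only [Sys.wc]
    have h1 : kap * (t' - t) ≤ (F.sys t').c b - (F.sys t).c b := by
      change kap * (t' - t) ≤ (F.be b * t' + F.ga b) - (F.be b * t + F.ga b)
      have := mul_le_mul_of_nonneg_right (hk b) (sub_nonneg.2 h)
      linarith
    have h0 : (F.sys t).c b ≤ (F.sys t').c b := by
      change F.be b * t + F.ga b ≤ F.be b * t' + F.ga b
      have := mul_le_mul_of_nonneg_left h (F.be_pos b).le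
      linarith
    have hp := (F.sys t).wal_pos w
    rw [← wal_eq F t t' w]
    by_cases hw' : w = []
    · subst hw'
      simp only [Sys.wal, Sys.wc]
      linarith
    · have h3 := ih hw'
      have h4 := mul_le_mul_of_nonneg_left h0 hp.le
      linarith

end H92MEAS

open Set MeasureTheory in
theorem pf_MEAS : T_MEAS := by
  intro S B F w kap hw hkap hk qa qb t₀ hqa
  set A := {t | qb - qa * t ∈ Icc ((F.sys t).wc w) ((F.sys t).wc w + (F.sys t).wal w)} with hA
  have key : ∀ t ∈ A, ∀ t' ∈ A, t ≤ t' → t' - t ≤ (F.sys t₀).wal w / kap := by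
    intro t ht t' ht' h
    have h1 := ht.2
    have h2 := ht'.1
    have h3 := H92MEAS.wc_diff F kap hk t t' h w hw
    have h4 := mul_le_mul_of_nonneg_left h hqa
    rw [H92MEAS.wal_eq F t t₀ w] at h1
    rw [le_div_iff₀ hkap]
    nlinarith
  have hwp := (F.sys t₀).wal_pos w
  have hd : 0 ≤ (F.sys t₀).wal w / kap := (div_pos hwp hkap).le
  refine (Real.volume_le_diam A).trans ?_
  refine Metric.ediam_le ?_
  intro t ht t' ht'
  rw [edist_dist, Real.dist_eq]
  apply ENNReal.ofReal_le_ofReal
  rcases le_total t t' with h | h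
  · rw [abs_sub_comm, abs_of_nonneg (sub_nonneg.2 h)]
    exact key t ht t' ht' h
  · rw [abs_of_nonneg (sub_nonneg.2 h)]
    exact key t' ht' t ht h

end DS
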